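import Mathlib

/-!
Beck's potential criterion for a Maker win on a linear uniform hypergraph,
for games encoded by histories (lists of moves).
-/

set_option autoImplicit false

namespace Pool.Agent.Lib.MP839d5d

open Finset

variable {P : Type*} [DecidableEq P]

/-- Points owned by the first player. -/
def mk (h : List P) : Finset P := h.toFinset.filter (fun p => Even (List.idxOf p h))

/-- Points owned by the second player. -/
def br (h : List P) : Finset P := h.toFinset.filter (fun p => ¬ Even (List.idxOf p h))

lemma mem_mk {h : List P} {p : P} : p ∈ mk h ↔ p ∈ h ∧ Even (List.idxOf p h) := by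
  simp [mk]

lemma mem_br {h : List P} {p : P} : p ∈ br h ↔ p ∈ h ∧ ¬ Even (List.idxOf p h) := by
  simp [br]

lemma idxOf_append_mem {h : List P} {p x : P} (hp : p ∈ h) :
    List.idxOf p (h ++ [x]) = List.idxOf p h := by
  exact List.idxOf_append_of_mem hp

lemma idxOf_append_self {h : List P} {x : P} (hx : x ∉ h) :
    List.idxOf x (h ++ [x]) = h.length := by
  rw [List.idxOf_append_of_notMem hx]
  simp

lemma mk_append_mem {h : List P} {x : P} (hx : x ∈ h) : mk (h ++ [x]) = mk h := by
  ext p
  rw [mem_mk, mem_mk]
  constructor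
  · rintro ⟨h1, h2⟩
    have h3 : p ∈ h := by
      rcases List.mem_append.1 h1 with h4 | h4
      · exact h4
      · rw [List.mem_singleton.1 h4]; exact hx
    rw [idxOf_append_mem h3] at h2
    exact ⟨h3, h2⟩
  · rintro ⟨h1, h2⟩
    rw [idxOf_append_mem h1]
    exact ⟨List.mem_append_left _ h1, h2⟩

lemma br_append_mem {h : List P} {x : P} (hx : x ∈ h) : br (h ++ [x]) = br h := by
  ext p
  rw [mem_br, mem_br]
  constructor
  · rintro ⟨h1, h2⟩
    have h3 : p ∈ h := by
      rcases List.mem_append.1 h1 with h4 | h4
      · exact h4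
      · rw [List.mem_singleton.1 h4]; exact hx
    rw [idxOf_append_mem h3] at h2
    exact ⟨h3, h2⟩
  · rintro ⟨h1, h2⟩
    rw [idxOf_append_mem h1]
    exact ⟨List.mem_append_left _ h1, h2⟩

lemma mk_append_even {h : List P} {x : P} (hx : x ∉ h) (he : Even h.length) :
    mk (h ++ [x]) = insert x (mk h) := by
  ext p
  rw [mem_mk, mem_insert, mem_mk]
  by_cases hpx : p = x
  · subst hpx
    rw [idxOf_append_self hx]
    simp [he]
  · constructor
    · rintro ⟨h1, h2⟩
      have h3 : p ∈ h := by
        rcases List.mem_append.1 h1 with h4 | h4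
        · exact h4
        · exact absurd (List.mem_singleton.1 h4) hpx
      rw [idxOf_append_mem h3] at h2
      exact Or.inr ⟨h3, h2⟩
    · rintro (h1 | ⟨h1, h2⟩)
      · exact absurd h1 hpx
      · rw [idxOf_append_mem h1]
        exact ⟨List.mem_append_left _ h1, h2⟩

lemma br_append_even {h : List P} {x : P} (hx : x ∉ h) (he : Even h.length) :
    br (h ++ [x]) = br h := by
  ext p
  rw [mem_br, mem_br]
  by_cases hpx : p = x
  · subst hpx
    rw [idxOf_append_self hx]
    simp [he, hx]
  · constructor
    · rintro ⟨h1, h2⟩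
      have h3 : p ∈ h := by
        rcases List.mem_append.1 h1 with h4 | h4
        · exact h4
        · exact absurd (List.mem_singleton.1 h4) hpx
      rw [idxOf_append_mem h3] at h2
      exact ⟨h3, h2⟩
    · rintro ⟨h1, h2⟩
      rw [idxOf_append_mem h1]
      exact ⟨List.mem_append_left _ h1, h2⟩

lemma mk_append_odd {h : List P} {x : P} (hx : x ∉ h) (he : ¬ Even h.length) :
    mk (h ++ [x]) = mk h := by
  ext p
  rw [mem_mk, mem_mk]
  by_cases hpx : p = x
  · subst hpx
    rw [idxOf_append_self hx]
    simp [he, hx]
  · constructor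
    · rintro ⟨h1, h2⟩
      have h3 : p ∈ h := by
        rcases List.mem_append.1 h1 with h4 | h4
        · exact h4
        · exact absurd (List.mem_singleton.1 h4) hpx
      rw [idxOf_append_mem h3] at h2
      exact ⟨h3, h2⟩
    · rintro ⟨h1, h2⟩
      rw [idxOf_append_mem h1]
      exact ⟨List.mem_append_left _ h1, h2⟩

lemma br_append_odd {h : List P} {x : P} (hx : x ∉ h) (he : ¬ Even h.length) :
    br (h ++ [x]) = insert x (br h) := by
  ext p
  rw [mem_br, mem_insert, mem_br]
  by_cases hpx : p = x
  · subst hpx
    rw [idxOf_append_self hx]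
    simp [he]
  · constructor
    · rintro ⟨h1, h2⟩
      have h3 : p ∈ h := by
        rcases List.mem_append.1 h1 with h4 | h4
        · exact h4
        · exact absurd (List.mem_singleton.1 h4) hpx
      rw [idxOf_append_mem h3] at h2
      exact Or.inr ⟨h3, h2⟩
    · rintro (h1 | ⟨h1, h2⟩)
      · exact absurd h1 hpx
      · rw [idxOf_append_mem h1]
        exact ⟨List.mem_append_left _ h1, h2⟩

/-- The family members not touched by the second player. -/
def alive (F : Finset (Finset P)) (B : Finset P) : Finset (Finset P) :=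
  F.filter (fun L => Disjoint L B)

/-- Total potential. -/
def pot (F : Finset (Finset P)) (M B : Finset P) : ℕ :=
  ∑ L ∈ alive F B, 2 ^ (L ∩ M).card

/-- Potential through a point. -/
def wt (F : Finset (Finset P)) (M B : Finset P) (x : P) : ℕ :=
  ∑ L ∈ alive F B, if x ∈ L then 2 ^ (L ∩ M).card else 0

/-- Potential through two points. -/
def wt2 (F : Finset (Finset P)) (M B : Finset P) (x y : P) : ℕ :=
  ∑ L ∈ alive F B, if x ∈ L ∧ y ∈ L then 2 ^ (L ∩ M).card else 0

lemma card_inter_insert {L M : Finset P} {x : P} (hx : x ∉ M) :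
    (L ∩ insert x M).card = (L ∩ M).card + if x ∈ L then 1 else 0 := by
  by_cases h : x ∈ L
  · rw [Finset.inter_insert_of_mem h, Finset.card_insert_of_notMem]
    · simp [h]
    · simp [hx]
  · rw [Finset.inter_insert_of_notMem h]
    simp [h]

lemma pot_insert_mk (F : Finset (Finset P)) (M B : Finset P) {x : P} (hx : x ∉ M) :
    pot F (insert x M) B = pot F M B + wt F M B x := by
  unfold pot wt
  rw [← Finset.sum_add_distrib]
  apply Finset.sum_congr rfl
  intro L _
  rw [card_inter_insert hx]
  by_cases h : x ∈ L
  · simp [h, pow_succ]; ring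
  · simp [h]

lemma alive_insert (F : Finset (Finset P)) (B : Finset P) (y : P) :
    alive F (insert y B) = (alive F B).filter (fun L => y ∉ L) := by
  ext L
  simp only [alive, Finset.mem_filter, Finset.disjoint_insert_right]
  tauto

lemma pot_round (F : Finset (Finset P)) (M B : Finset P) {x y : P} (hx : x ∉ M) :
    pot F (insert x M) (insert y B) + (wt F M B y + wt2 F M B x y) =
      pot F M B + wt F M B x := by
  unfold pot wt wt2
  rw [alive_insert, Finset.sum_filter, ← Finset.sum_add_distrib, ← Finset.sum_add_distrib,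
    ← Finset.sum_add_distrib]
  apply Finset.sum_congr rfl
  intro L _
  rw [card_inter_insert hx]
  by_cases h : x ∈ L <;> by_cases h' : y ∈ L <;> simp [h, h', pow_succ]
  all_goals ring

lemma wt2_le (F : Finset (Finset P)) (M B : Finset P) {x y : P} (n : ℕ)
    (hn : ∀ L ∈ F, L.card = n)
    (hlin : ∀ L ∈ F, ∀ L' ∈ F, x ∈ L → x ∈ L' → y ∈ L → y ∈ L' → L = L')
    (hx : x ∉ M) (hy : y ∉ M) (hxy : x ≠ y) :
    wt2 F M B x y ≤ 2 ^ (n - 2) := by
  unfold wt2
  rw [← Finset.sum_filter]
  by_cases hne : ((alive F B).filter (fun L => x ∈ L ∧ y ∈ L)).Nonempty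
  · obtain ⟨L0, hL0⟩ := hne
    have hsing : (alive F B).filter (fun L => x ∈ L ∧ y ∈ L) = {L0} := by
      ext L
      rw [Finset.mem_singleton]
      constructor
      · intro hL
        simp only [alive, Finset.mem_filter] at hL hL0
        exact hlin L hL.1.1 L0 hL0.1.1 hL.2.1 hL0.2.1 hL.2.2 hL0.2.2
      · rintro rfl; exact hL0
    rw [hsing, Finset.sum_singleton]
    simp only [alive, Finset.mem_filter] at hL0
    apply Nat.pow_le_pow_right (by norm_num)
    have h1 : L0 ∩ M ⊆ (L0.erase x).erase y := by
      intro p hp
      rw [Finset.mem_inter] at hp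
      rw [Finset.mem_erase, Finset.mem_erase]
      refine ⟨?_, ?_, hp.1⟩
      · rintro rfl; exact hy hp.2
      · rintro rfl; exact hx hp.2
    have h2 := Finset.card_le_card h1
    rw [Finset.card_erase_of_mem, Finset.card_erase_of_mem hL0.2.1, hn L0 hL0.1.1] at h2
    · omega
    · rw [Finset.mem_erase]; exact ⟨hxy.symm, hL0.2.2⟩
  · rw [Finset.not_nonempty_iff_eq_empty] at hne
    rw [hne]; simp

lemma wt_eq_zero (F : Finset (Finset P)) (V M B : Finset P) (hV : ∀ L ∈ F, L ⊆ V) {y : P}
    (hy : y ∉ V) : wt F M B y = 0 := by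
  unfold wt
  apply Finset.sum_eq_zero
  intro L hL
  simp only [alive, Finset.mem_filter] at hL
  rw [if_neg]
  intro h; exact hy (hV L hL.1 h)

lemma wt_eq_zero' (F : Finset (Finset P)) (M B : Finset P) {y : P}
    (hy : y ∈ B) : wt F M B y = 0 := by
  unfold wt
  apply Finset.sum_eq_zero
  intro L hL
  simp only [alive, Finset.mem_filter] at hL
  rw [if_neg]
  intro h; exact (Finset.disjoint_left.1 hL.2 h) hy

/-- One step of the play. -/
def step (σ τ : List P → P) (h : List P) : List P :=
  h ++ [if Even h.length then σ h else τ h]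

omit [DecidableEq P] in
lemma length_step (σ τ : List P → P) (k : ℕ) : ((step σ τ)^[k] []).length = k := by
  induction k with
  | zero => simp
  | succ k ih => rw [Function.iterate_succ_apply', step, List.length_append, ih]; simp

/-- Beck's criterion: on a linear `n`-uniform family inside `V` with more than
`2^(n-2) * |V|` members, the first player can occupy a whole member. -/
theorem beck_legal [Nonempty P] (F : Finset (Finset P)) (V : Finset P) (n : ℕ)
    (hV : ∀ L ∈ F, L ⊆ V) (hn : ∀ L ∈ F, L.card = n)
    (hlin : ∀ L ∈ F, ∀ L' ∈ F, ∀ x y : P, x ≠ y → x ∈ L → x ∈ L' → y ∈ L → y ∈ L' → L = L')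
    (hcount : 2 ^ (n - 2) * V.card < F.card) :
    ∃ σ : List P → P, (∀ h : List P, (∃ p, p ∉ h) → σ h ∉ h) ∧
      ∀ τ : List P → P, ∃ k : ℕ, ∃ L ∈ F, ∀ p ∈ L,
      p ∈ (step σ τ)^[k] [] ∧ Even (List.idxOf p ((step σ τ)^[k] [])) := by
  classical
  have hsel : ∀ h : List P, ∃ x : P, ((∃ p, p ∉ h) → x ∉ h) ∧ ((V \ h.toFinset).Nonempty →
      x ∈ V \ h.toFinset ∧ ∀ y ∈ V \ h.toFinset, wt F (mk h) (br h) y ≤ wt F (mk h) (br h) x) := by
    intro h
    by_cases hne : (V \ h.toFinset).Nonempty
    · obtain ⟨x, hx, hmax⟩ := Finset.exists_max_image (V \ h.toFinset)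
        (fun y => wt F (mk h) (br h) y) hne
      refine ⟨x, fun _ => ?_, fun _ => ⟨hx, hmax⟩⟩
      have := (Finset.mem_sdiff.1 hx).2
      simpa using this
    · by_cases hex : ∃ p, p ∉ h
      · obtain ⟨p, hp⟩ := hex
        exact ⟨p, fun _ => hp, fun h' => absurd h' hne⟩
      · exact ⟨Classical.arbitrary P, fun h' => absurd h' hex, fun h' => absurd h' hne⟩
  choose σ hσleg hσ using hsel
  refine ⟨σ, hσleg, fun τ => ?_⟩
  set H : ℕ → List P := fun k => (step σ τ)^[k] [] with hH
  have hlen : ∀ k, (H k).length = k := fun k => length_step σ τ k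
  have hsucc : ∀ k, H (k + 1) = H k ++ [if Even (H k).length then σ (H k) else τ (H k)] := by
    intro k
    simp only [hH, Function.iterate_succ_apply', step]
  -- invariant
  have hinv : ∀ m : ℕ, min m V.card ≤ (V ∩ (H (2 * m)).toFinset).card ∧
      F.card ≤ pot F (mk (H (2 * m))) (br (H (2 * m))) +
        2 ^ (n - 2) * (V ∩ (H (2 * m)).toFinset).card := by
    intro m
    induction m with
    | zero =>
      constructor
      · simp
      · have : H (2 * 0) = [] := by simp [hH]
        rw [this]
        simp [pot, alive, mk, br]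
    | succ m ih =>
      obtain ⟨ih1, ih2⟩ := ih
      have hE : Even (H (2 * m)).length := by rw [hlen]; exact even_two_mul m
      have hO : ¬ Even (H (2 * m + 1)).length := by
        rw [hlen]; simp
      have h1 : H (2 * m + 1) = H (2 * m) ++ [σ (H (2 * m))] := by
        rw [hsucc, if_pos hE]
      have h2 : H (2 * (m + 1)) = H (2 * m + 1) ++ [τ (H (2 * m + 1))] := by
        rw [show 2 * (m + 1) = (2 * m + 1) + 1 by ring, hsucc, if_neg hO]
      set h := H (2 * m) with hh
      set x := σ h with hxdef
      set y := τ (H (2 * m + 1)) with hydef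
      rw [h1] at h2
      have hmono : V ∩ h.toFinset ⊆ V ∩ (H (2 * (m + 1))).toFinset := by
        rw [h2]
        apply Finset.inter_subset_inter_left
        intro p hp
        simp only [List.mem_toFinset, List.mem_append] at hp ⊢
        exact Or.inl (Or.inl hp)
      by_cases hne : (V \ h.toFinset).Nonempty
      · obtain ⟨hx, hmax⟩ := hσ h hne
        have hxV : x ∈ V := (Finset.mem_sdiff.1 hx).1
        have hxh : x ∉ h := by
          have := (Finset.mem_sdiff.1 hx).2
          simpa using this
        have hxM : x ∉ mk h := fun h' => hxh (mem_mk.1 h').1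
        have hstrict : (V ∩ h.toFinset).card + 1 ≤ (V ∩ (H (2 * (m + 1))).toFinset).card := by
          apply Finset.card_lt_card
          rw [Finset.ssubset_iff_of_subset hmono]
          refine ⟨x, ?_, ?_⟩
          · rw [h2]; simp [hxV]
          · simp [hxh]
        have hpotge : pot F (mk h) (br h) ≤
            pot F (mk (H (2 * (m + 1)))) (br (H (2 * (m + 1)))) + 2 ^ (n - 2) := by
          have hO' : ¬ Even (h ++ [x]).length := by
            rw [← h1]; exact hO
          by_cases hy : y ∈ h ++ [x]
          · rw [h2, mk_append_mem hy, br_append_mem hy, mk_append_even hxh hE,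
              br_append_even hxh hE, pot_insert_mk F _ _ hxM, Nat.add_assoc]
            exact Nat.le_add_right _ _
          · rw [h2, mk_append_odd hy hO', br_append_odd hy hO', mk_append_even hxh hE,
              br_append_even hxh hE]
            have hyh : y ∉ h := fun h' => hy (List.mem_append_left _ h')
            have hyx : x ≠ y := by
              rintro h'
              apply hy; rw [← h']; simp
            have hyM : y ∉ mk h := fun h' => hyh (mem_mk.1 h').1
            have hr := pot_round F (mk h) (br h) (x := x) (y := y) hxM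
            have hw2 := wt2_le F (mk h) (br h) (x := x) (y := y) n hn
              (fun L hL L' hL' a b c d => hlin L hL L' hL' x y hyx a b c d) hxM hyM hyx
            have hw : wt F (mk h) (br h) y ≤ wt F (mk h) (br h) x := by
              by_cases hyV : y ∈ V
              · apply hmax
                rw [Finset.mem_sdiff]
                exact ⟨hyV, by simpa using hyh⟩
              · rw [wt_eq_zero F V _ _ hV hyV]; exact Nat.zero_le _
            omega
        constructor
        · have : min (m + 1) V.card ≤ min m V.card + 1 := by omega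
          omega
        · have h3 : 2 ^ (n - 2) * ((V ∩ h.toFinset).card + 1) ≤
              2 ^ (n - 2) * (V ∩ (H (2 * (m + 1))).toFinset).card :=
            Nat.mul_le_mul_left _ hstrict
          rw [Nat.mul_add, Nat.mul_one] at h3
          omega
      · -- everything in V is taken; potential cannot decrease
        rw [Finset.not_nonempty_iff_eq_empty, Finset.sdiff_eq_empty_iff_subset] at hne
        have hcard : (V ∩ h.toFinset) = V := Finset.inter_eq_left.2 hne
        have hcard2 : V ∩ (H (2 * (m + 1))).toFinset = V := by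
          apply Finset.Subset.antisymm Finset.inter_subset_left
          rw [hcard] at hmono
          exact hmono
        constructor
        · rw [hcard2]; exact min_le_right _ _
        · rw [hcard2]
          rw [hcard] at ih2
          refine le_trans ih2 ?_
          apply Nat.add_le_add_right
          -- the potential does not change
          have key : ∀ (M B M' B' : Finset P), (∀ p ∈ V, p ∈ M → p ∈ M') →
              (∀ p ∈ V, p ∈ B' → p ∈ B) → pot F M B ≤ pot F M' B' := by
            intro M B M' B' hM hB
            unfold pot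
            calc ∑ L ∈ alive F B, 2 ^ (L ∩ M).card ≤ ∑ L ∈ alive F B, 2 ^ (L ∩ M').card := by
                  apply Finset.sum_le_sum
                  intro L hL
                  simp only [alive, Finset.mem_filter] at hL
                  apply Nat.pow_le_pow_right (by norm_num)
                  apply Finset.card_le_card
                  intro p hp
                  rw [Finset.mem_inter] at hp ⊢
                  exact ⟨hp.1, hM p (hV L hL.1 hp.1) hp.2⟩
              _ ≤ ∑ L ∈ alive F B', 2 ^ (L ∩ M').card := by
                  apply Finset.sum_le_sum_of_subset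
                  intro L hL
                  simp only [alive, Finset.mem_filter] at hL ⊢
                  refine ⟨hL.1, ?_⟩
                  rw [Finset.disjoint_left]
                  intro p hp hp'
                  exact (Finset.disjoint_left.1 hL.2 hp) (hB p (hV L hL.1 hp) hp')
          apply key
          · intro p hp hpM
            rw [mem_mk] at hpM ⊢
            rw [h2, List.append_assoc, List.idxOf_append_of_mem hpM.1]
            exact ⟨List.mem_append_left _ hpM.1, hpM.2⟩
          · intro p hp hpB
            have hph : p ∈ h := by simpa using hne hp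
            rw [mem_br] at hpB ⊢
            rw [h2, List.append_assoc, List.idxOf_append_of_mem hph] at hpB
            exact ⟨hph, hpB.2⟩
  obtain ⟨hi1, hi2⟩ := hinv V.card
  rw [min_self] at hi1
  have hVin : V ∩ (H (2 * V.card)).toFinset = V := by
    apply Finset.eq_of_subset_of_card_le Finset.inter_subset_left hi1
  rw [hVin] at hi2
  have hpos : 0 < pot F (mk (H (2 * V.card))) (br (H (2 * V.card))) := by omega
  unfold pot at hpos
  have hne : (alive F (br (H (2 * V.card)))).Nonempty := by
    by_contra hcon
    rw [Finset.not_nonempty_iff_eq_empty] at hcon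
    rw [hcon] at hpos
    simp at hpos
  obtain ⟨L, hL⟩ := hne
  simp only [alive, Finset.mem_filter] at hL
  refine ⟨2 * V.card, L, hL.1, fun p hp => ?_⟩
  have hpV : p ∈ V := hV L hL.1 hp
  have hpH : p ∈ H (2 * V.card) := by
    rw [← hVin] at hpV
    simpa using (Finset.mem_inter.1 hpV).2
  refine ⟨hpH, ?_⟩
  by_contra hodd
  exact (Finset.disjoint_left.1 hL.2 hp) (mem_br.2 ⟨hpH, hodd⟩)

theorem beck [Nonempty P] (F : Finset (Finset P)) (V : Finset P) (n : ℕ)
    (hV : ∀ L ∈ F, L ⊆ V) (hn : ∀ L ∈ F, L.card = n)
    (hlin : ∀ L ∈ F, ∀ L' ∈ F, ∀ x y : P, x ≠ y → x ∈ L → x ∈ L' → y ∈ L → y ∈ L' → L = L')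
    (hcount : 2 ^ (n - 2) * V.card < F.card) :
    ∃ σ : List P → P, ∀ τ : List P → P, ∃ k : ℕ, ∃ L ∈ F, ∀ p ∈ L,
      p ∈ (step σ τ)^[k] [] ∧ Even (List.idxOf p ((step σ τ)^[k] [])) := by
  obtain ⟨σ, -, h⟩ := beck_legal F V n hV hn hlin hcount
  exact ⟨σ, h⟩

end Pool.Agent.Lib.MP839d5d
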