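import Mathlib
import Pool.Agent.Lib.MP_839d5d_co.Beck

/-!
Geometric lines of `[n]^d`, restricted to the points whose value-type counts are
`(a + f, f, ..., f)`, form a linear hypergraph of large minimum degree.
-/

set_option autoImplicit false

namespace Pool.Agent.Lib.MP839d5d

open Finset

variable {n d : ℕ}

/-- The point of the line `(a, s)` at parameter `t`. -/
def pt (a : Fin d → Fin n) (s : Fin d → Fin 3) (t : Fin n) : Fin d → Fin n :=
  fun i => if s i = 0 then a i else if s i = 1 then t else Fin.rev t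

/-- The type of a value: the values `t` and `rev t` have the same type. -/
def ty (t : Fin n) : ℕ := min t.val (Fin.rev t).val

/-- The line as a finite set of points. -/
def line (a : Fin d → Fin n) (s : Fin d → Fin 3) : Finset (Fin d → Fin n) :=
  univ.image (pt a s)

lemma ty_rev (t : Fin n) : ty (Fin.rev t) = ty t := by
  unfold ty
  rw [Fin.rev_rev, min_comm]

lemma ty_lt (t : Fin n) : ty t < (n + 1) / 2 := by
  unfold ty
  have := t.isLt
  rw [Fin.val_rev]
  omega

lemma eq_or_rev_of_ty {t t0 : Fin n} (h : ty t = ty t0) : t = t0 ∨ t = Fin.rev t0 := by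
  unfold ty at h
  have h1 := t.isLt
  have h2 := t0.isLt
  rw [Fin.val_rev, Fin.val_rev] at h
  by_cases h3 : t.val = t0.val
  · left; exact Fin.ext h3
  · right
    apply Fin.ext
    rw [Fin.val_rev]
    omega

lemma fin3_cases (x : Fin 3) : x = 0 ∨ x = 1 ∨ x = 2 := by
  fin_cases x <;> simp

lemma pt_injective (a : Fin d → Fin n) (s : Fin d → Fin 3) (hs : ∃ i, s i ≠ 0) :
    Function.Injective (pt a s) := by
  obtain ⟨i, hi⟩ := hs
  intro t t' h
  have h1 := congrFun h i
  simp only [pt, if_neg hi] at h1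
  by_cases h2 : s i = 1
  · simpa [h2] using h1
  · simpa [h2] using h1

lemma card_line (a : Fin d → Fin n) (s : Fin d → Fin 3) (hs : ∃ i, s i ≠ 0) :
    (line a s).card = n := by
  unfold line
  rw [Finset.card_image_of_injective _ (pt_injective a s hs)]
  simp

lemma mem_line {a : Fin d → Fin n} {s : Fin d → Fin 3} {p : Fin d → Fin n} :
    p ∈ line a s ↔ ∃ t, pt a s t = p := by
  simp [line]

lemma rev_eq_self_unique {t t' : Fin n} (h : t = Fin.rev t) (h' : t' = Fin.rev t') : t = t' := by
  have h1 := t.isLt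
  have h2 := t'.isLt
  have h3 := congrArg Fin.val h
  have h4 := congrArg Fin.val h'
  rw [Fin.val_rev] at h3 h4
  apply Fin.ext
  omega

/-- Two lines that agree at two parameters (in the same direction) agree everywhere. -/
lemma pt_agree {a a' : Fin d → Fin n} {s s' : Fin d → Fin 3} {t1 t2 : Fin n} (h12 : t1 ≠ t2)
    (h1 : pt a s t1 = pt a' s' t1) (h2 : pt a s t2 = pt a' s' t2) (t : Fin n) :
    pt a s t = pt a' s' t := by
  funext i
  have e1 := congrFun h1 i
  have e2 := congrFun h2 i
  simp only [pt] at e1 e2 ⊢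
  rcases fin3_cases (s i) with h | h | h <;> rcases fin3_cases (s' i) with h' | h' | h' <;>
    simp only [h, h'] at e1 e2 ⊢ <;> simp at e1 e2 ⊢
  · exact e1
  · exact absurd (e1.symm.trans e2) h12
  · exact absurd (Fin.rev_injective (e1.symm.trans e2)) h12
  · exact absurd (e1.trans e2.symm) h12
  · exact absurd (rev_eq_self_unique e1 e2) h12
  · exact absurd (Fin.rev_injective (e1.trans e2.symm)) h12
  · exact absurd (rev_eq_self_unique e1.symm e2.symm) h12

lemma pt_agree_rev {a a' : Fin d → Fin n} {s s' : Fin d → Fin 3} {t1 t2 : Fin n} (h12 : t1 ≠ t2)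
    (h1 : pt a s t1 = pt a' s' (Fin.rev t1)) (h2 : pt a s t2 = pt a' s' (Fin.rev t2))
    (t : Fin n) : pt a s t = pt a' s' (Fin.rev t) := by
  funext i
  have e1 := congrFun h1 i
  have e2 := congrFun h2 i
  simp only [pt] at e1 e2 ⊢
  rcases fin3_cases (s i) with h | h | h <;> rcases fin3_cases (s' i) with h' | h' | h' <;>
    simp only [h, h'] at e1 e2 ⊢ <;> simp at e1 e2 ⊢
  · exact e1
  · exact absurd (Fin.rev_injective (e1.symm.trans e2)) h12
  · exact absurd (e1.symm.trans e2) h12
  · exact absurd (e1.trans e2.symm) h12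
  · exact absurd (rev_eq_self_unique e1 e2) h12
  · exact absurd (Fin.rev_injective (e1.trans e2.symm)) h12
  · exact absurd (rev_eq_self_unique e1.symm e2.symm) h12

lemma line_linear {a a' : Fin d → Fin n} {s s' : Fin d → Fin 3} (hs : ∃ i, s i ≠ 0)
    {x y : Fin d → Fin n} (hxy : x ≠ y) (hx : x ∈ line a s) (hx' : x ∈ line a' s')
    (hy : y ∈ line a s) (hy' : y ∈ line a' s') : line a s = line a' s' := by
  rw [mem_line] at hx hx' hy hy'
  obtain ⟨t1, ht1⟩ := hx
  obtain ⟨t1', ht1'⟩ := hx'
  obtain ⟨t2, ht2⟩ := hy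
  obtain ⟨t2', ht2'⟩ := hy'
  have h12 : t1 ≠ t2 := by rintro rfl; exact hxy (ht1.symm.trans ht2)
  have h12' : t1' ≠ t2' := by rintro rfl; exact hxy (ht1'.symm.trans ht2')
  obtain ⟨i, hi⟩ := hs
  have e1 := congrFun (ht1.trans ht1'.symm) i
  have e2 := congrFun (ht2.trans ht2'.symm) i
  -- either the parameters correspond directly or by reversal
  have hcase : (t1' = t1 ∧ t2' = t2) ∨ (t1' = Fin.rev t1 ∧ t2' = Fin.rev t2) := by
    simp only [pt] at e1 e2
    rcases fin3_cases (s i) with h | h | h <;> rcases fin3_cases (s' i) with h' | h' | h' <;>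
      simp only [h, h'] at e1 e2 hi <;> simp at e1 e2 hi
    · exact absurd (e1.trans e2.symm) h12
    · left; exact ⟨e1.symm, e2.symm⟩
    · right
      rw [e1, e2, Fin.rev_rev, Fin.rev_rev]; exact ⟨rfl, rfl⟩
    · exact absurd (Fin.rev_injective (e1.trans e2.symm)) h12
    · right; exact ⟨e1.symm, e2.symm⟩
    · left; exact ⟨e1.symm, e2.symm⟩
  rcases hcase with ⟨c1, c2⟩ | ⟨c1, c2⟩
  · subst c1; subst c2
    ext p
    rw [mem_line, mem_line]
    have := pt_agree h12 (ht1.trans ht1'.symm) (ht2.trans ht2'.symm)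
    constructor
    · rintro ⟨t, rfl⟩; exact ⟨t, (this t).symm⟩
    · rintro ⟨t, rfl⟩; exact ⟨t, this t⟩
  · subst c1; subst c2
    ext p
    rw [mem_line, mem_line]
    have := pt_agree_rev h12 (ht1.trans ht1'.symm) (ht2.trans ht2'.symm)
    constructor
    · rintro ⟨t, rfl⟩; exact ⟨Fin.rev t, (this t).symm⟩
    · rintro ⟨t, rfl⟩; exact ⟨Fin.rev t, by rw [this, Fin.rev_rev]⟩

/-- Number of coordinates of `p` with a value of type `u`. -/
def cnt (p : Fin d → Fin n) (u : ℕ) : ℕ := (univ.filter (fun j => ty (p j) = u)).card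

open Classical in
/-- The restricted board: one type occurs `a + f` times, every other type `f` times. -/
noncomputable def VV (n d a f : ℕ) : Finset (Fin d → Fin n) :=
  univ.filter (fun p => ∃ u ∈ range ((n + 1) / 2), ∀ u' ∈ range ((n + 1) / 2),
    cnt p u' = if u' = u then a + f else f)

lemma mem_VV {a f : ℕ} {p : Fin d → Fin n} : p ∈ VV n d a f ↔
    ∃ u ∈ range ((n + 1) / 2), ∀ u' ∈ range ((n + 1) / 2),
      cnt p u' = if u' = u then a + f else f := by
  unfold VV
  simp only [Finset.mem_filter, Finset.mem_univ, true_and]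

/-- Lines inside the restricted board. -/
noncomputable def FF (n d a f : ℕ) : Finset (Finset (Fin d → Fin n)) :=
  ((univ.filter (fun q : (Fin d → Fin n) × (Fin d → Fin 3) => ∃ i, q.2 i ≠ 0)).image
    (fun q => line q.1 q.2)).filter (fun L => L ⊆ VV n d a f)

lemma mem_FF {a f : ℕ} {L : Finset (Fin d → Fin n)} : L ∈ FF n d a f ↔
    (∃ b : Fin d → Fin n, ∃ s : Fin d → Fin 3, (∃ i, s i ≠ 0) ∧ line b s = L) ∧
      L ⊆ VV n d a f := by
  unfold FF
  rw [Finset.mem_filter, Finset.mem_image]
  constructor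
  · rintro ⟨⟨⟨b, s⟩, h1, h2⟩, h3⟩
    exact ⟨⟨b, s, (Finset.mem_filter.1 h1).2, h2⟩, h3⟩
  · rintro ⟨⟨b, s, h1, h2⟩, h3⟩
    exact ⟨⟨⟨b, s⟩, Finset.mem_filter.2 ⟨Finset.mem_univ _, h1⟩, h2⟩, h3⟩

/-- Direction word obtained from a point and a set of active coordinates. -/
def sS (p : Fin d → Fin n) (t0 : Fin n) (S : Finset (Fin d)) : Fin d → Fin 3 :=
  fun j => if j ∈ S then (if p j = t0 then 1 else 2) else 0

lemma sS_ne_zero {p : Fin d → Fin n} {t0 : Fin n} {S : Finset (Fin d)} {j : Fin d} :
    sS p t0 S j ≠ 0 ↔ j ∈ S := by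
  unfold sS
  by_cases h : j ∈ S
  · by_cases h' : p j = t0 <;> simp [h, h']
  · simp [h]

lemma pt_sS_self {p : Fin d → Fin n} {t0 : Fin n} {S : Finset (Fin d)}
    (hS : ∀ j ∈ S, p j = t0 ∨ p j = Fin.rev t0) : pt p (sS p t0 S) t0 = p := by
  funext j
  simp only [pt, sS]
  by_cases h : j ∈ S
  · by_cases h' : p j = t0
    · simp [h, h']
    · rcases hS j h with h'' | h''
      · exact absurd h'' h'
      · simp only [if_pos h, if_neg h']
        simp [h'']
  · simp [h]

lemma ty_pt_sS {p : Fin d → Fin n} {t0 t : Fin n} {S : Finset (Fin d)} (j : Fin d) :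
    ty (pt p (sS p t0 S) t j) = if j ∈ S then ty t else ty (p j) := by
  simp only [pt, sS]
  by_cases h : j ∈ S
  · by_cases h' : p j = t0
    · simp [h, h']
    · simp [h, h', ty_rev]
  · simp [h]

lemma cnt_pt_sS {p : Fin d → Fin n} {t0 t : Fin n} {S : Finset (Fin d)} {u : ℕ}
    (hS : ∀ j ∈ S, ty (p j) = u) (u' : ℕ) :
    cnt (pt p (sS p t0 S) t) u' + (if u' = u then S.card else 0) =
      cnt p u' + (if u' = ty t then S.card else 0) := by
  have e1 : univ.filter (fun j => ty (pt p (sS p t0 S) t j) = u') =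
      (if u' = ty t then S else ∅) ∪ (univ.filter (fun j => ty (p j) = u') \ S) := by
    ext j
    simp only [Finset.mem_filter, Finset.mem_univ, true_and, Finset.mem_union, Finset.mem_sdiff,
      ty_pt_sS]
    by_cases h : j ∈ S
    · by_cases h' : u' = ty t
      · simp [h, h']
      · have : ty t ≠ u' := fun h'' => h' h''.symm
        simp [h, h', this]
    · by_cases h' : u' = ty t
      · simp [h, h']
      · simp [h, h']
  have e2 : (univ.filter (fun j => ty (p j) = u')).card =
      (univ.filter (fun j => ty (p j) = u') \ S).card + (if u' = u then S.card else 0) := by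
    by_cases h : u' = u
    · subst h
      rw [if_pos rfl]
      have hsub : S ⊆ univ.filter (fun j => ty (p j) = u') := by
        intro j hj
        simp [hS j hj]
      rw [Finset.card_sdiff_of_subset hsub]
      have := Finset.card_le_card hsub
      omega
    · rw [if_neg h]
      have : Disjoint (univ.filter (fun j => ty (p j) = u')) S := by
        rw [Finset.disjoint_left]
        intro j hj hjS
        simp only [Finset.mem_filter, Finset.mem_univ, true_and] at hj
        exact h (hj.symm.trans (hS j hjS))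
      rw [Finset.sdiff_eq_self_of_disjoint this]
      rfl
  unfold cnt
  rw [e1, Finset.card_union_of_disjoint, e2]
  · by_cases h : u' = ty t
    · simp [h]; ring
    · simp [h]
  · rw [Finset.disjoint_left]
    intro j hj hj'
    rw [Finset.mem_sdiff] at hj'
    by_cases h : u' = ty t
    · rw [if_pos h] at hj; exact hj'.2 hj
    · rw [if_neg h] at hj; simp at hj

lemma line_sS_subset {a f : ℕ} {p : Fin d → Fin n} {t0 : Fin n} {S : Finset (Fin d)}
    {u : ℕ} (hp : ∀ u' ∈ range ((n + 1) / 2), cnt p u' = if u' = u then a + f else f)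
    (hS : ∀ j ∈ S, ty (p j) = u) (hcard : S.card = a) (hu : u < (n + 1) / 2) :
    line p (sS p t0 S) ⊆ VV n d a f := by
  intro q hq
  rw [mem_line] at hq
  obtain ⟨t, rfl⟩ := hq
  rw [mem_VV]
  refine ⟨ty t, Finset.mem_range.2 (ty_lt t), fun u' hu' => ?_⟩
  have h1 := cnt_pt_sS (t0 := t0) (t := t) hS u'
  rw [hp u' hu', hcard] at h1
  by_cases h2 : u' = u <;> by_cases h3 : u' = ty t
  · rw [if_pos h2, if_pos h2, if_pos h3] at h1
    rw [if_pos h3]; omega
  · rw [if_pos h2, if_pos h2, if_neg h3] at h1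
    rw [if_neg h3]; omega
  · rw [if_neg h2, if_neg h2, if_pos h3] at h1
    rw [if_pos h3]; omega
  · rw [if_neg h2, if_neg h2, if_neg h3] at h1
    rw [if_neg h3]; omega

lemma line_sS_inj (hn : 2 ≤ n) {p : Fin d → Fin n} {t0 : Fin n} {S S' : Finset (Fin d)}
    (h : line p (sS p t0 S) = line p (sS p t0 S')) : S ⊆ S' := by
  intro j hj
  by_contra hj'
  have key : ∀ t : Fin n, pt p (sS p t0 S) t j = p j := by
    intro t
    have h1 : pt p (sS p t0 S) t ∈ line p (sS p t0 S) := mem_line.2 ⟨t, rfl⟩
    rw [h, mem_line] at h1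
    obtain ⟨t', ht'⟩ := h1
    rw [← ht']
    simp [pt, sS, hj']
  have k0 := key ⟨0, by omega⟩
  have k1 := key ⟨1, by omega⟩
  have k2 := k0.trans k1.symm
  simp only [pt, sS, if_pos hj] at k2
  by_cases h' : p j = t0
  · simp [h'] at k2
  · simp [h'] at k2

lemma deg_ge (hn : 2 ≤ n) {a f : ℕ} (ha : 1 ≤ a) {p : Fin d → Fin n} (hp : p ∈ VV n d a f) :
    (a + f).choose a ≤ ((FF n d a f).filter (fun L => p ∈ L)).card := by
  rw [mem_VV] at hp
  obtain ⟨u, hu, hcnt⟩ := hp
  have hu' := Finset.mem_range.1 hu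
  set A : Finset (Fin d) := univ.filter (fun j => ty (p j) = u) with hA
  have hAcard : A.card = a + f := by
    have := hcnt u hu
    rw [if_pos rfl] at this
    exact this
  have hun : u < n := by omega
  set t0 : Fin n := ⟨u, hun⟩ with ht0
  have hty0 : ty t0 = u := by
    unfold ty
    rw [Fin.val_rev]
    simp only [ht0]
    omega
  rw [← hAcard, ← Finset.card_powersetCard]
  apply Finset.card_le_card_of_injOn (fun S => line p (sS p t0 S))
  · intro S hS
    have hS' := Finset.mem_powersetCard.1 (Finset.mem_coe.1 hS)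
    have hSu : ∀ j ∈ S, ty (p j) = u := fun j hj => (Finset.mem_filter.1 (hS'.1 hj)).2
    apply Finset.mem_coe.2
    rw [Finset.mem_filter, mem_FF]
    refine ⟨⟨⟨p, sS p t0 S, ?_, rfl⟩, ?_⟩, ?_⟩
    · have hne : S.Nonempty := by
        rw [← Finset.card_pos]; omega
      obtain ⟨j, hj⟩ := hne
      exact ⟨j, sS_ne_zero.2 hj⟩
    · exact line_sS_subset hcnt hSu hS'.2 hu'
    · rw [mem_line]
      refine ⟨t0, pt_sS_self (fun j hj => ?_)⟩
      apply eq_or_rev_of_ty
      rw [hSu j hj, hty0]
  · intro S _ S' _ hSS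
    exact Finset.Subset.antisymm (line_sS_inj hn hSS) (line_sS_inj hn hSS.symm)

lemma double_count (hn : 2 ≤ n) {a f : ℕ} (ha : 1 ≤ a) :
    (VV n d a f).card * (a + f).choose a ≤ (FF n d a f).card * n := by
  have h1 : ∑ p ∈ VV n d a f, ((FF n d a f).filter (fun L => p ∈ L)).card =
      ∑ L ∈ FF n d a f, ((VV n d a f).filter (fun p => p ∈ L)).card := by
    simp only [Finset.card_filter]
    exact Finset.sum_comm
  have h2 : ∑ L ∈ FF n d a f, ((VV n d a f).filter (fun p => p ∈ L)).card =
      (FF n d a f).card * n := by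
    rw [Finset.sum_const_nat]
    intro L hL
    obtain ⟨⟨b, s, hs, rfl⟩, hsub⟩ := mem_FF.1 hL
    have : (VV n d a f).filter (fun p => p ∈ line b s) = line b s := by
      ext p
      rw [Finset.mem_filter]
      exact ⟨fun h => h.2, fun h => ⟨hsub h, h⟩⟩
    rw [this, card_line b s hs]
  rw [← h2, ← h1]
  rw [← smul_eq_mul]
  exact Finset.card_nsmul_le_sum _ _ _ (fun p hp => deg_ge hn ha hp)

/-- Existence of a point with the required counts. -/
lemma VV_nonempty (hn : 2 ≤ n) {a f : ℕ} (hd : d = a + f * ((n + 1) / 2)) :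
    (VV n d a f).Nonempty := by
  set hh := (n + 1) / 2 with hhdef
  have hhpos : 0 < hh := by omega
  have hg : ∀ j : Fin d, (if j.val < a then 0 else (j.val - a) / f) < hh := by
    intro j
    split_ifs with h
    · exact hhpos
    · have hj := j.isLt
      rcases Nat.eq_zero_or_pos f with hf | hf
      · rw [hf]; simpa using hhpos
      · rw [Nat.div_lt_iff_lt_mul hf]
        rw [Nat.mul_comm]
        omega
  have hhn : hh ≤ n := by omega
  set p : Fin d → Fin n := fun j =>
    ⟨if j.val < a then 0 else (j.val - a) / f, lt_of_lt_of_le (hg j) hhn⟩ with hp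
  have hty : ∀ j, ty (p j) = if j.val < a then 0 else (j.val - a) / f := by
    intro j
    unfold ty
    rw [Fin.val_rev]
    have h1 := hg j
    simp only [hp]
    omega
  refine ⟨p, ?_⟩
  rw [mem_VV]
  refine ⟨0, Finset.mem_range.2 hhpos, fun u' hu' => ?_⟩
  rw [Finset.mem_range] at hu'
  unfold cnt
  simp only [hty]
  -- transfer to naturals
  have htrans : (univ.filter (fun j : Fin d => (if j.val < a then 0 else (j.val - a) / f) = u')).card
      = ((range d).filter (fun j : ℕ => (if j < a then 0 else (j - a) / f) = u')).card := by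
    rw [Finset.card_filter, Finset.card_filter]
    exact Fin.sum_univ_eq_sum_range
      (fun j : ℕ => if (if j < a then 0 else (j - a) / f) = u' then 1 else 0) d
  rw [htrans]
  rcases Nat.eq_zero_or_pos f with hf | hf
  · subst hf
    have hda : d = a := by rw [hd]; simp
    by_cases h0 : u' = 0
    · rw [if_pos h0, Finset.filter_true_of_mem]
      · simp [hda]
      · intro j hj
        rw [Finset.mem_range, hda] at hj
        rw [if_pos hj, h0]
    · rw [if_neg h0, Finset.filter_false_of_mem]
      · simp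
      · intro j hj
        rw [Finset.mem_range, hda] at hj
        rw [if_pos hj]
        exact fun h => h0 h.symm
  · by_cases h0 : u' = 0
    · rw [if_pos h0]
      have : (range d).filter (fun j : ℕ => (if j < a then 0 else (j - a) / f) = u') =
          range (a + f) := by
        ext j
        simp only [Finset.mem_filter, Finset.mem_range]
        constructor
        · rintro ⟨h1, h2⟩
          by_cases h3 : j < a
          · omega
          · rw [if_neg h3, h0, Nat.div_eq_zero_iff] at h2
            omega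
        · intro h1
          constructor
          · have : f * 1 ≤ f * hh := Nat.mul_le_mul_left _ hhpos
            omega
          · by_cases h3 : j < a
            · rw [if_pos h3, h0]
            · rw [if_neg h3, h0, Nat.div_eq_zero_iff]
              right; omega
      rw [this, Finset.card_range]
    · rw [if_neg h0]
      have : (range d).filter (fun j : ℕ => (if j < a then 0 else (j - a) / f) = u') =
          Finset.Ico (a + f * u') (a + f * (u' + 1)) := by
        ext j
        simp only [Finset.mem_filter, Finset.mem_range, Finset.mem_Ico]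
        constructor
        · rintro ⟨h1, h2⟩
          by_cases h3 : j < a
          · rw [if_pos h3] at h2
            exact absurd h2.symm h0
          · rw [if_neg h3, Nat.div_eq_iff hf] at h2
            obtain ⟨h4, h5⟩ := h2
            rw [Nat.mul_comm f u', Nat.mul_comm f (u' + 1), Nat.add_mul]
            omega
        · rintro ⟨h1, h2⟩
          have h3 : ¬ j < a := by omega
          have h4 : f * (u' + 1) ≤ f * hh := Nat.mul_le_mul_left _ hu'
          refine ⟨by omega, ?_⟩
          rw [if_neg h3, Nat.div_eq_iff hf]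
          rw [Nat.mul_comm f u', Nat.mul_comm f (u' + 1), Nat.add_mul] at *
          omega
      rw [this, Nat.card_Ico, Nat.mul_add]
      omega

/-- The first player's win, exactly as in the frozen statement. -/
def Win (n d : ℕ) : Prop :=
  ∃ σ : List (Fin d → Fin n) → (Fin d → Fin n),
    ∀ τ : List (Fin d → Fin n) → (Fin d → Fin n),
      ∃ k : ℕ, ∃ a : Fin d → Fin n, ∃ s : Fin d → Fin 3, (∃ i, s i ≠ 0) ∧
        ∀ t : Fin n,
          (fun i => if s i = 0 then a i else if s i = 1 then t else Fin.rev t) ∈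
              (fun h : List (Fin d → Fin n) =>
                h ++ [if Even h.length then σ h else τ h])^[k] [] ∧
          Even (List.idxOf
            (fun i => if s i = 0 then a i else if s i = 1 then t else Fin.rev t)
            ((fun h : List (Fin d → Fin n) =>
                h ++ [if Even h.length then σ h else τ h])^[k] []))

/-- Sufficient condition for a first-player win, with a legal strategy. -/
theorem legal_win_of_choose (n d a f : ℕ) (hn : 2 ≤ n) (ha : 1 ≤ a)
    (hd : d = a + f * ((n + 1) / 2)) (hC : n * 2 ^ (n - 2) < (a + f).choose a) :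
    ∃ σ : List (Fin d → Fin n) → (Fin d → Fin n), (∀ h, (∃ p, p ∉ h) → σ h ∉ h) ∧
      ∀ τ : List (Fin d → Fin n) → (Fin d → Fin n), ∃ k : ℕ, ∃ b : Fin d → Fin n,
        ∃ s : Fin d → Fin 3, (∃ i, s i ≠ 0) ∧ ∀ t : Fin n,
          pt b s t ∈ (step σ τ)^[k] [] ∧ Even (List.idxOf (pt b s t) ((step σ τ)^[k] [])) := by
  have hne := VV_nonempty (n := n) (d := d) hn (a := a) (f := f) hd
  have hpos : 0 < (VV n d a f).card := Finset.card_pos.2 hne
  have hdc := double_count (n := n) (d := d) hn (a := a) (f := f) ha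
  have hcount : 2 ^ (n - 2) * (VV n d a f).card < (FF n d a f).card := by
    have h1 : (VV n d a f).card * (n * 2 ^ (n - 2)) < (VV n d a f).card * (a + f).choose a :=
      Nat.mul_lt_mul_of_pos_left hC hpos
    have h2 : (2 ^ (n - 2) * (VV n d a f).card) * n < (FF n d a f).card * n := by
      calc (2 ^ (n - 2) * (VV n d a f).card) * n = (VV n d a f).card * (n * 2 ^ (n - 2)) := by ring
        _ < _ := lt_of_lt_of_le h1 hdc
    exact Nat.lt_of_mul_lt_mul_right h2
  obtain ⟨p0, -⟩ := hne
  have : Nonempty (Fin d → Fin n) := ⟨p0⟩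
  obtain ⟨σ, hleg, hσ⟩ := beck_legal (FF n d a f) (VV n d a f) n
    (fun L hL => (mem_FF.1 hL).2)
    (fun L hL => by
      obtain ⟨⟨b, s, hs, rfl⟩, -⟩ := mem_FF.1 hL
      exact card_line b s hs)
    (fun L hL L' hL' x y hxy hx hx' hy hy' => by
      obtain ⟨⟨b, s, hs, rfl⟩, -⟩ := mem_FF.1 hL
      obtain ⟨⟨b', s', hs', rfl⟩, -⟩ := mem_FF.1 hL'
      exact line_linear hs hxy hx hx' hy hy')
    hcount
  refine ⟨σ, hleg, fun τ => ?_⟩
  obtain ⟨k, L, hL, hall⟩ := hσ τ
  obtain ⟨⟨b, s, hs, rfl⟩, -⟩ := mem_FF.1 hL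
  refine ⟨k, b, s, hs, fun t => ?_⟩
  exact hall (pt b s t) (mem_line.2 ⟨t, rfl⟩)

/-- Sufficient condition for a first-player win. -/
theorem win_of_choose (n d a f : ℕ) (hn : 2 ≤ n) (ha : 1 ≤ a)
    (hd : d = a + f * ((n + 1) / 2)) (hC : n * 2 ^ (n - 2) < (a + f).choose a) : Win n d := by
  obtain ⟨σ, -, h⟩ := legal_win_of_choose n d a f hn ha hd hC
  refine ⟨σ, fun τ => ?_⟩
  obtain ⟨k, b, s, hs, hall⟩ := h τ
  exact ⟨k, b, s, hs, fun t => hall t⟩

end Pool.Agent.Lib.MP839d5d
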